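import Mathlib

set_option autoImplicit false

namespace Pool.Agent.Results.MP_6f811f_co.BalancedLowerBound

open SimpleGraph Finset

/-- `T` is a monochromatic tree of `G` with respect to the edge colouring `c`: a subgraph which is a
tree (possibly a single vertex) and all of whose edges get the same colour. -/
def IsMonoTree {V K : Type} (G : SimpleGraph V) (c : Sym2 V → K) (T : G.Subgraph) : Prop :=
  T.coe.IsTree ∧ ∃ k : K, ∀ e ∈ T.edgeSet, c e = k

/-- The vertices of `G` can be covered by `t` monochromatic trees (trees may share vertices and may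
have different colours). -/
def Coverable {V K : Type} (G : SimpleGraph V) (c : Sym2 V → K) (t : ℕ) : Prop :=
  ∃ T : Fin t → G.Subgraph, (∀ i, IsMonoTree G c (T i)) ∧ ∀ v, ∃ i, v ∈ (T i).verts

/-- `t(G, c)`: the least number of monochromatic trees covering the vertices of `G`. -/
noncomputable def coverNumber {V K : Type} (G : SimpleGraph V) (c : Sym2 V → K) : ℕ :=
  sInf {t | Coverable G c t}

/-- `tc_r(G)`: the maximum of `t(G, c)` over all `r`-edge-colourings `c` of `G`. -/
noncomputable def tc (r : ℕ) {V : Type} (G : SimpleGraph V) : ℕ :=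
  sSup {t | ∃ c : Sym2 V → Fin r, coverNumber G c = t}

/-- The balanced complete bipartite graph `K_{n,n}`. -/
abbrev K (n : ℕ) : SimpleGraph (Fin n ⊕ Fin n) := completeBipartiteGraph (Fin n) (Fin n)

/-- A single vertex is a monochromatic tree, so the number of vertices is always enough. -/
theorem coverable_card {V K : Type} [Fintype V] [Nonempty K] (G : SimpleGraph V) (c : Sym2 V → K) :
    Coverable G c (Fintype.card V) := by
  classical
  refine ⟨fun i => G.singletonSubgraph ((Fintype.equivFin V).symm i), fun i => ⟨?_, ?_⟩, fun v => ?_⟩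
  · constructor
    · exact Subgraph.singletonSubgraph_connected.coe
    · intro v p hp
      have h1 := hp.1.1
      cases p with
      | nil => exact hp.1.ne_nil rfl
      | cons h q =>
        exact absurd h (by
          intro h
          simp at h)
  · refine ⟨Classical.arbitrary K, fun e he => ?_⟩
    simp at he
  · exact ⟨Fintype.equivFin V v, by simp⟩

/-- The combinatorial core: pairs `(i,k)` meeting all injections and all indices are at least
`2 s` in number. -/
theorem core {s : ℕ} (hs : 1 ≤ s) (P : Finset (Fin s × Fin (s + 1)))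
    (hP1 : ∀ i, ∃ k, (i, k) ∈ P)
    (hP2 : ∀ π : Fin s ↪ Fin (s + 1), ∃ i, (i, π i) ∈ P) : 2 * s ≤ P.card := by
  classical
  -- Hall
  let Q : Fin s → Finset (Fin (s + 1)) := fun i => univ.filter fun k => (i, k) ∉ P
  let R : Fin s → Finset (Fin (s + 1)) := fun i => univ.filter fun k => (i, k) ∈ P
  have hQ : ¬ ∀ S : Finset (Fin s), S.card ≤ (S.biUnion Q).card := by
    intro h
    obtain ⟨f, hf, hf'⟩ := (Finset.all_card_le_biUnion_card_iff_exists_injective Q).1 h
    obtain ⟨i, hi⟩ := hP2 ⟨f, hf⟩
    have := hf' i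
    simp only [Q, mem_filter, mem_univ, true_and] at this
    exact this hi
  push Not at hQ
  obtain ⟨S, hS⟩ := hQ
  have hSpos : 1 ≤ S.card := by omega
  have hSs : S.card ≤ s := by simpa using S.card_le_univ
  -- card of P
  have hcard : P.card = ∑ i, (R i).card := by
    rw [Finset.card_eq_sum_card_fiberwise (f := Prod.fst) (t := univ) (fun _ _ => mem_coe.2 (mem_univ _))]
    refine Finset.sum_congr rfl fun i _ => ?_
    symm
    refine Finset.card_bij (fun k _ => (i, k)) ?_ ?_ ?_
    · intro k hk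
      simpa [R] using hk
    · intro a _ b _ h
      simpa using h
    · rintro ⟨j, k⟩ hk
      simp only [mem_filter] at hk
      obtain ⟨hk1, rfl⟩ := hk
      exact ⟨k, by simpa [R] using hk1, rfl⟩
  have hR1 : ∀ i, 1 ≤ (R i).card := by
    intro i
    obtain ⟨k, hk⟩ := hP1 i
    exact Finset.card_pos.2 ⟨k, by simp [R, hk]⟩
  have hR2 : ∀ i ∈ S, s + 2 ≤ (R i).card + S.card := by
    intro i hi
    have h1 : (S.biUnion Q)ᶜ ⊆ R i := by
      intro k hk
      simp only [mem_compl, mem_biUnion, not_exists, not_and] at hk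
      have := hk i hi
      simp only [Q, mem_filter, mem_univ, true_and, not_not] at this
      simp [R, this]
    have h2 := card_le_card h1
    rw [card_compl, Fintype.card_fin] at h2
    omega
  have h3 : ∑ i, (R i).card = ∑ i ∈ S, (R i).card + ∑ i ∈ Sᶜ, (R i).card :=
    (Finset.sum_add_sum_compl S _).symm
  have h4 : Sᶜ.card • 1 ≤ ∑ i ∈ Sᶜ, (R i).card := Finset.card_nsmul_le_sum _ _ _ fun i _ => hR1 i
  have h5 : S.card • (s + 2 - S.card) ≤ ∑ i ∈ S, (R i).card :=
    Finset.card_nsmul_le_sum _ _ _ fun i hi => by have := hR2 i hi; omega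
  have h6 : Sᶜ.card = s - S.card := by rw [card_compl, Fintype.card_fin]
  rw [hcard, h3]
  rw [h6] at h4
  simp only [smul_eq_mul, mul_one] at h4 h5
  obtain ⟨d, hd⟩ : ∃ d, s = S.card + d := ⟨s - S.card, by omega⟩
  have h7 : s + 2 - S.card = d + 2 := by omega
  have h8 : s - S.card = d := by omega
  rw [h7] at h5
  rw [h8] at h4
  obtain ⟨m, hm⟩ : ∃ m, S.card = m + 1 := ⟨S.card - 1, by omega⟩
  rw [hm] at h5 hd
  have h9 : (m + 1) * (d + 2) = m * d + 2 * m + d + 2 := by ring
  have h10 : 2 * s ≤ (m * d + 2 * m + d + 2) + d := by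
    rw [hd]; nlinarith [Nat.zero_le (m * d)]
  omega

/-- The colouring: the left vertex `a` has class `cl a`, the right vertex `b` carries an injection
`e b`, and the edge `ab` gets colour `e b (cl a)`. -/
def col {n s : ℕ} (cl : Fin n → Fin s) (e : Fin n → Fin s ↪ Fin (s + 1)) :
    Sym2 (Fin n ⊕ Fin n) → Fin (s + 1) :=
  Sym2.lift ⟨fun x y => match x, y with
    | .inl a, .inr b => e b (cl a)
    | .inr b, .inl a => e b (cl a)
    | _, _ => 0, by rintro (a | a) (b | b) <;> rfl⟩

/-- Every monochromatic tree lies in a star-like class described by a pair `(i, k)`. -/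
theorem tree_pair {n s : ℕ} (hs : 1 ≤ s) (cl : Fin n → Fin s) (e : Fin n → Fin s ↪ Fin (s + 1))
    (T : (K n).Subgraph) (hT : IsMonoTree (K n) (col cl e) T) :
    ∃ p : Fin s × Fin (s + 1), (∀ a, Sum.inl a ∈ T.verts → cl a = p.1) ∧
      (∀ b, Sum.inr b ∈ T.verts → e b p.1 = p.2) := by
  obtain ⟨hTree, k, hk⟩ := hT
  by_cases hL : ∃ a, Sum.inl a ∈ T.verts
  · obtain ⟨a, ha⟩ := hL
    let Good : Fin n ⊕ Fin n → Prop := fun v => match v with
      | .inl a' => cl a' = cl a
      | .inr b => e b (cl a) = k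
    have step : ∀ u v : T.verts, T.coe.Adj u v → Good u → Good v := by
      rintro ⟨u, hu⟩ ⟨v, hv⟩ huv hg
      rw [Subgraph.coe_adj] at huv
      simp only at huv
      have hadj := T.adj_sub huv
      have hcol := hk s(u, v) (by simpa using huv)
      rcases u with x | x <;> rcases v with y | y
      · simp [K] at hadj
      · simp only [col, Sym2.lift_mk] at hcol
        simp only [Good] at hg ⊢
        rw [← hg]; exact hcol
      · simp only [col, Sym2.lift_mk] at hcol
        simp only [Good] at hg ⊢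
        exact (e x).injective (hcol.trans hg.symm)
      · simp [K] at hadj
    have all : ∀ v : T.verts, Good v := by
      intro v
      obtain ⟨w⟩ := hTree.1.preconnected ⟨Sum.inl a, ha⟩ v
      have h0 : Good (⟨Sum.inl a, ha⟩ : T.verts) := rfl
      have key : ∀ (u v : T.verts) (w : T.coe.Walk u v), Good u → Good v := by
        intro u v w
        induction w with
        | nil => exact fun h => h
        | cons h p ih => exact fun h0 => ih (step _ _ h h0)
      exact key _ _ w h0
    exact ⟨(cl a, k), fun a' ha' => all ⟨_, ha'⟩, fun b hb => all ⟨_, hb⟩⟩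
  · push Not at hL
    obtain ⟨⟨v, hv⟩⟩ := hTree.1.nonempty
    rcases v with a | b
    · exact absurd hv (hL a)
    refine ⟨(⟨0, hs⟩, e b ⟨0, hs⟩), fun a ha => absurd ha (hL a), fun b' hb' => ?_⟩
    obtain ⟨w⟩ := hTree.1.preconnected ⟨Sum.inr b, hv⟩ ⟨Sum.inr b', hb'⟩
    cases w with
    | nil => rfl
    | @cons _ x _ h p =>
      obtain ⟨x, hx⟩ := x
      rw [Subgraph.coe_adj] at h
      simp only at h
      have hadj := T.adj_sub h
      rcases x with y | y
      · exact absurd hx (hL y)
      · simp [K] at hadj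

theorem not_coverable {n s : ℕ} (hs : 1 ≤ s) (hn : (s + 1).factorial ≤ n) :
    ∃ c : Sym2 (Fin n ⊕ Fin n) → Fin (s + 1), ∀ t, Coverable (K n) c t → 2 * s ≤ t := by
  classical
  have hcard : Fintype.card (Fin s ↪ Fin (s + 1)) ≤ Fintype.card (Fin n) := by
    rw [Fintype.card_embedding_eq, Fintype.card_fin, Fintype.card_fin, Fintype.card_fin]
    refine le_trans ?_ hn
    rw [Nat.descFactorial_eq_div (by omega)]
    exact Nat.div_le_self _ _
  have hsn : s ≤ n := by
    have := Nat.self_le_factorial (s + 1)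
    omega
  -- a surjection onto the injections
  have : Nonempty (Fin s ↪ Fin (s + 1)) := ⟨⟨Fin.castSucc, Fin.castSucc_injective s⟩⟩
  obtain ⟨g⟩ := Function.Embedding.nonempty_of_card_le hcard
  let e : Fin n → (Fin s ↪ Fin (s + 1)) := Function.invFun g
  have he : Function.Surjective e := Function.invFun_surjective g.injective
  let cl : Fin n → Fin s := fun a => ⟨a % s, Nat.mod_lt _ hs⟩
  have hcl : ∀ i : Fin s, ∃ a, cl a = i := fun i => ⟨⟨i, lt_of_lt_of_le i.2 hsn⟩, by
    apply Fin.ext
    simp [cl, Nat.mod_eq_of_lt i.2]⟩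
  refine ⟨col cl e, fun t ⟨T, hT, hcov⟩ => ?_⟩
  choose p hp1 hp2 using fun j => tree_pair hs cl e (T j) (hT j)
  have h1 := core hs (univ.image p) (fun i => by
      obtain ⟨a, ha⟩ := hcl i
      obtain ⟨j, hj⟩ := hcov (Sum.inl a)
      refine ⟨(p j).2, ?_⟩
      rw [mem_image]
      refine ⟨j, mem_univ _, ?_⟩
      rw [← ha, hp1 j a hj]) (fun π => by
      obtain ⟨b, hb⟩ := he π
      obtain ⟨j, hj⟩ := hcov (Sum.inr b)
      refine ⟨(p j).1, ?_⟩
      rw [mem_image]
      refine ⟨j, mem_univ _, ?_⟩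
      rw [← hb, hp2 j b hj])
  exact h1.trans (by simpa using (card_image_le (s := univ) (f := p)))

/-- For every `r ≥ 2` and every `n ≥ r!`, some `r`-edge-colouring of the balanced complete bipartite
graph `K_{n,n}` has no cover by fewer than `2r - 2` monochromatic trees; in particular
`tc_r(K_{n,n}) ≥ 2r - 2`. -/
theorem result (r n : ℕ) (hr : 2 ≤ r) (hn : r.factorial ≤ n) :
    (∃ c : Sym2 (Fin n ⊕ Fin n) → Fin r, ∀ t, Coverable (K n) c t → 2 * r - 2 ≤ t) ∧
      2 * r - 2 ≤ tc r (K n) := by
  obtain ⟨s, rfl⟩ : ∃ s, r = s + 1 := ⟨r - 1, by omega⟩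
  have h2 : 2 * (s + 1) - 2 = 2 * s := by omega
  rw [h2]
  obtain ⟨c, hc⟩ := not_coverable (s := s) (by omega) hn
  refine ⟨⟨c, hc⟩, ?_⟩
  have hle : 2 * s ≤ coverNumber (K n) c :=
    hc _ (Nat.sInf_mem (s := {t | Coverable (K n) c t}) ⟨_, coverable_card (K n) c⟩)
  refine hle.trans (le_csSup ⟨Fintype.card (Fin n ⊕ Fin n), ?_⟩ ⟨c, rfl⟩)
  rintro t ⟨c', rfl⟩
  exact Nat.sInf_le (coverable_card (K n) c')

end Pool.Agent.Results.MP_6f811f_co.BalancedLowerBound
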